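import Mathlib

/-!
# Surjective endomorphisms with a kernel: the basic constructions

`F = FreeGroup (ι ⊕ ι)`; for a group `G` with a tuple `x : ι → G` and an endomorphism `φ`,
`psi x φ i : F → G` sends the first copy of the generators to `x` and the second one to
`φ^i (x)`.
-/

namespace Pool.Agent.Helper32.SmallVar

open Function

section Iter

variable {G : Type*} [Group G] (φ : G →* G)

/-- The union of the kernels of the iterates of `φ`. -/
def nilp : Subgroup G where
  carrier := {g | ∃ i, φ^[i] g = 1}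
  one_mem' := ⟨0, rfl⟩
  mul_mem' := by
    rintro a b ⟨i, hi⟩ ⟨j, hj⟩
    refine ⟨i + j, ?_⟩
    rw [iterate_map_mul, Nat.add_comm, iterate_add_apply, hi, iterate_map_one, one_mul,
      Nat.add_comm, iterate_add_apply, hj, iterate_map_one]
  inv_mem' := by
    rintro a ⟨i, hi⟩
    exact ⟨i, by rw [iterate_map_inv, hi, inv_one]⟩

theorem mem_nilp {g : G} : g ∈ nilp φ ↔ ∃ i, φ^[i] g = 1 := Iff.rfl

theorem iter_one_of_le {g : G} {i j : ℕ} (h : i ≤ j) (hi : φ^[i] g = 1) : φ^[j] g = 1 := by
  obtain ⟨k, rfl⟩ := Nat.exists_eq_add_of_le h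
  rw [Nat.add_comm, iterate_add_apply, hi, iterate_map_one]

theorem nilp_conj {n : G} (hn : n ∈ nilp φ) (g : G) : g * n * g⁻¹ ∈ nilp φ := by
  obtain ⟨i, hi⟩ := hn
  exact ⟨i, by rw [iterate_map_mul, iterate_map_mul, hi, mul_one, iterate_map_inv, mul_inv_cancel]⟩

theorem nilp_map {n : G} (hn : n ∈ nilp φ) : φ n ∈ nilp φ := by
  obtain ⟨i, hi⟩ := hn
  exact ⟨i, by rw [← iterate_succ_apply, iterate_succ_apply', hi, map_one]⟩

theorem nilp_of_map {n : G} (hn : φ n ∈ nilp φ) : n ∈ nilp φ := by
  obtain ⟨i, hi⟩ := hn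
  exact ⟨i + 1, by rw [iterate_succ_apply, hi]⟩

theorem nilp_of_iter {n : G} {i : ℕ} (hn : φ^[i] n ∈ nilp φ) : n ∈ nilp φ := by
  obtain ⟨j, hj⟩ := hn
  exact ⟨j + i, by rw [iterate_add_apply, hj]⟩

end Iter

section Psi

variable {G : Type*} [Group G] {ι : Type*} (x : ι → G) (φ : G →* G)

/-- The homomorphism from the free group on two copies of `ι` given by `x` and `φ^i (x)`. -/
def psi (i : ℕ) : FreeGroup (ι ⊕ ι) →* G :=
  FreeGroup.lift (Sum.elim x (fun k => φ^[i] (x k)))

/-- Inclusion of words in the first copy. -/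
def inlW : FreeGroup ι →* FreeGroup (ι ⊕ ι) := FreeGroup.map Sum.inl

/-- Inclusion of words in the second copy. -/
def inrW : FreeGroup ι →* FreeGroup (ι ⊕ ι) := FreeGroup.map Sum.inr

theorem psi_inl (i : ℕ) (w : FreeGroup ι) : psi x φ i (inlW w) = FreeGroup.lift x w := by
  have : (psi x φ i).comp inlW = FreeGroup.lift x := by
    ext k
    simp [psi, inlW]
  exact DFunLike.congr_fun this w

theorem psi_inr (i : ℕ) (w : FreeGroup ι) : psi x φ i (inrW w) = φ^[i] (FreeGroup.lift x w) := by
  induction w using FreeGroup.induction_on with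
  | C1 => simp
  | of k => simp [psi, inrW]
  | inv_of k hk => rw [map_inv, map_inv, map_inv, iterate_map_inv, hk]
  | mul a b ha hb => rw [map_mul, map_mul, map_mul, iterate_map_mul, ha, hb]

variable {x}

theorem exists_word (hx : Subgroup.closure (Set.range x) = ⊤) (g : G) :
    ∃ w : FreeGroup ι, FreeGroup.lift x w = g := by
  have : g ∈ (FreeGroup.lift x).range := by
    rw [FreeGroup.range_lift_eq_closure, hx]
    trivial
  exact this

end Psi

end Pool.Agent.Helper32.SmallVar
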