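import Pool.Agent.Helper32.SmallVar.Basic

/-!
# Case 1: the iterated commutators never vanish
-/

namespace Pool.Agent.Helper32.SmallVar

open Function
open scoped commutatorElement

section Series

variable {G : Type*} [Group G] (φ : G →* G)

/-- The normal closure of the elements `g⁻¹ φ^d(g)`. -/
def dif (d : ℕ) : Subgroup G := Subgroup.normalClosure {y | ∃ g, y = g⁻¹ * φ^[d] g}

instance dif_normal (d : ℕ) : (dif φ d).Normal := Subgroup.normalClosure_normal

theorem mem_dif (d : ℕ) (g : G) : g⁻¹ * φ^[d] g ∈ dif φ d :=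
  Subgroup.subset_normalClosure ⟨g, rfl⟩

/-- A relative upper central series: `ser B 0 = 1` and `ser B (j+1)` consists of the elements whose
commutators with all elements of `B (j+1)` lie in `ser B j`. -/
def ser (B : ℕ → Subgroup G) : ℕ → Set G
  | 0 => {1}
  | j + 1 => {g | ∀ e ∈ B (j + 1), ⁅g, e⁆ ∈ ser B j}

theorem mem_ser_zero {B : ℕ → Subgroup G} {g : G} : g ∈ ser B 0 ↔ g = 1 := Iff.rfl

theorem mem_ser_succ {B : ℕ → Subgroup G} {j : ℕ} {g : G} :
    g ∈ ser B (j + 1) ↔ ∀ e ∈ B (j + 1), ⁅g, e⁆ ∈ ser B j := Iff.rfl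

theorem ser_aux {B : ℕ → Subgroup G} (hB : ∀ j, (B j).Normal) (j : ℕ) :
    (1 : G) ∈ ser B j ∧ (∀ a ∈ ser B j, ∀ b ∈ ser B j, a * b ∈ ser B j) ∧
      (∀ a ∈ ser B j, a⁻¹ ∈ ser B j) ∧ (∀ a ∈ ser B j, ∀ g : G, g * a * g⁻¹ ∈ ser B j) := by
  induction j with
  | zero =>
    refine ⟨rfl, ?_, ?_, ?_⟩
    · intro a ha b hb
      rw [mem_ser_zero] at *
      rw [ha, hb, one_mul]
    · intro a ha
      rw [mem_ser_zero] at *
      rw [ha, inv_one]
    · intro a ha g
      rw [mem_ser_zero] at *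
      rw [ha, mul_one, mul_inv_cancel]
  | succ j ih =>
    obtain ⟨h1, h2, h3, h4⟩ := ih
    refine ⟨?_, ?_, ?_, ?_⟩
    · intro e _
      rw [commutatorElement_one_left]
      exact h1
    · intro a ha b hb e he
      have : ⁅a * b, e⁆ = (a * ⁅b, e⁆ * a⁻¹) * ⁅a, e⁆ := by
        simp only [commutatorElement_def]; group
      rw [this]
      exact h2 _ (h4 _ (hb e he) a) _ (ha e he)
    · intro a ha e he
      have : ⁅a⁻¹, e⁆ = a⁻¹ * ⁅a, e⁆⁻¹ * a⁻¹⁻¹ := by
        simp only [commutatorElement_def]; group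
      rw [this]
      exact h4 _ (h3 _ (ha e he)) _
    · intro a ha g e he
      have : ⁅g * a * g⁻¹, e⁆ = g * ⁅a, g⁻¹ * e * g⁆ * g⁻¹ := by
        simp only [commutatorElement_def]; group
      rw [this]
      apply h4
      apply ha
      have := (hB (j + 1)).conj_mem e he g⁻¹
      rwa [inv_inv] at this

/-- The relative upper central series as subgroups. -/
def serSub {B : ℕ → Subgroup G} (hB : ∀ j, (B j).Normal) (j : ℕ) : Subgroup G where
  carrier := ser B j
  one_mem' := (ser_aux hB j).1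
  mul_mem' := fun ha hb => (ser_aux hB j).2.1 _ ha _ hb
  inv_mem' := fun ha => (ser_aux hB j).2.2.1 _ ha

theorem mem_serSub {B : ℕ → Subgroup G} (hB : ∀ j, (B j).Normal) {j : ℕ} {g : G} :
    g ∈ serSub hB j ↔ g ∈ ser B j := Iff.rfl

theorem serSub_conj {B : ℕ → Subgroup G} (hB : ∀ j, (B j).Normal) {j : ℕ} {a : G}
    (ha : a ∈ serSub hB j) (g : G) : g * a * g⁻¹ ∈ serSub hB j :=
  (ser_aux hB j).2.2.2 _ ha g

end Series

section CaseOne

variable {G : Type*} [Group G] {ι : Type*} {x : ι → G} {φ : G →* G}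

theorem psi_surjective (hx : Subgroup.closure (Set.range x) = ⊤) (i : ℕ) :
    Surjective (psi x φ i) := by
  intro g
  obtain ⟨w, hw⟩ := exists_word hx g
  exact ⟨inlW w, by rw [psi_inl, hw]⟩

/-- Every element of `dif φ d` is the value at `i + d` of an element of `F` vanishing at `i`. -/
theorem exists_lift_dif (hx : Subgroup.closure (Set.range x) = ⊤) (hs : Surjective φ) (i d : ℕ)
    {e : G} (he : e ∈ dif φ d) : ∃ f, psi x φ i f = 1 ∧ psi x φ (i + d) f = e := by
  have hn : ((psi x φ i).ker.map (psi x φ (i + d))).Normal :=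
    Subgroup.Normal.map inferInstance _ (psi_surjective hx _)
  have hle : dif φ d ≤ (psi x φ i).ker.map (psi x φ (i + d)) := by
    apply Subgroup.normalClosure_le_normal
    rintro y ⟨g, rfl⟩
    obtain ⟨g', hg'⟩ := (hs.iterate i) g
    obtain ⟨w, hw⟩ := exists_word hx g'
    obtain ⟨w', hw'⟩ := exists_word hx g
    refine ⟨(inlW w')⁻¹ * inrW w, ?_, ?_⟩
    · show psi x φ i _ = 1
      rw [map_mul, map_inv, psi_inl, psi_inr, hw, hw', hg', inv_mul_cancel]
    · rw [map_mul, map_inv, psi_inl, psi_inr, hw, hw', Nat.add_comm, iterate_add_apply, hg']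
  obtain ⟨f, hf, rfl⟩ := hle he
  exact ⟨f, hf, rfl⟩

theorem ser_lift (hx : Subgroup.closure (Set.range x) = ⊤) (hs : Surjective φ) (j : ℕ) (k : ℕ) :
    k ≤ j → ∀ f, psi x φ j f ∉ ser (dif φ) k → ∃ f', psi x φ j f' ≠ 1 ∧
      (∀ i, j - k ≤ i → i < j → psi x φ i f' = 1) ∧ (∀ i, psi x φ i f = 1 → psi x φ i f' = 1) := by
  induction k with
  | zero =>
    intro _ f hf
    exact ⟨f, hf, fun i h1 h2 => by omega, fun i hi => hi⟩
  | succ k ih =>
    intro hk f hf
    rw [mem_ser_succ] at hf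
    push Not at hf
    obtain ⟨e, he, hfe⟩ := hf
    obtain ⟨h, hh1, hh2⟩ := exists_lift_dif hx hs (j - (k + 1)) (k + 1) he
    rw [Nat.sub_add_cancel hk] at hh2
    obtain ⟨f', h1, h2, h3⟩ := ih (by omega) ⁅f, h⁆ (by rwa [map_commutatorElement, hh2])
    refine ⟨f', h1, ?_, ?_⟩
    · intro i hi1 hi2
      rcases Nat.lt_or_ge i (j - k) with hlt | hge
      · have : i = j - (k + 1) := by omega
        subst this
        apply h3
        rw [map_commutatorElement, hh1, commutatorElement_one_right]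
      · exact h2 i hge hi2
    · intro i hi
      apply h3
      rw [map_commutatorElement, hi, commutatorElement_one_left]

theorem case1_word (hx : Subgroup.closure (Set.range x) = ⊤) (hs : Surjective φ)
    (h : ∀ j, ∃ n ∈ nilp φ, n ∉ ser (dif φ) j) (j : ℕ) :
    ∃ r, psi x φ j r ≠ 1 ∧ (∀ i < j, psi x φ i r = 1) ∧ ∃ m, ∀ i ≥ m, psi x φ i r = 1 := by
  obtain ⟨n, hn, hnj⟩ := h j
  obtain ⟨n', rfl⟩ := (hs.iterate j) n
  obtain ⟨w, hw⟩ := exists_word hx n'
  have hn' := nilp_of_iter φ hn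
  obtain ⟨m, hm⟩ := hn'
  obtain ⟨r, h1, h2, h3⟩ := ser_lift hx hs j j le_rfl (inrW w) (by rwa [psi_inr, hw])
  refine ⟨r, h1, fun i hi => h2 i (by omega) hi, m, fun i hi => h3 i ?_⟩
  rw [psi_inr, hw]
  exact iter_one_of_le φ hi hm

theorem case1 (hx : Subgroup.closure (Set.range x) = ⊤) (hs : Surjective φ)
    (h : ∀ j, ∃ n ∈ nilp φ, n ∉ ser (dif φ) j) :
    ∃ R : (ℕ → Bool) → Subgroup (FreeGroup (ι ⊕ ι)), Injective R ∧
      ∀ ε, (R ε).Normal ∧ ∀ f, (∀ i, psi x φ i f = 1) → f ∈ R ε := by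
  choose r h1 h2 m h3 using case1_word hx hs h
  let s : ℕ → ℕ := fun a => Nat.rec 0 (fun _ b => max (m b) (b + 1)) a
  have hsucc : ∀ a, s (a + 1) = max (m (s a)) (s a + 1) := fun a => rfl
  have hmono : StrictMono s := strictMono_nat_of_lt_succ fun a => by
    rw [hsucc]; exact lt_of_lt_of_le (Nat.lt_succ_self _) (le_max_right _ _)
  have hvan : ∀ a b, a ≠ b → psi x φ (s b) (r (s a)) = 1 := by
    intro a b hab
    rcases lt_or_gt_of_ne hab with hlt | hgt
    · apply h3
      calc m (s a) ≤ s (a + 1) := by rw [hsucc]; exact le_max_left _ _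
        _ ≤ s b := hmono.monotone hlt
    · exact h2 _ _ (hmono hgt)
  refine ⟨fun ε => ⨅ a, ⨅ (_ : ε a = true), (psi x φ (s a)).ker, ?_, ?_⟩
  · intro ε δ hεδ
    have key : ∀ (ε : ℕ → Bool) a, r (s a) ∈ (⨅ a, ⨅ (_ : ε a = true), (psi x φ (s a)).ker) ↔
        ε a = false := by
      intro ε a
      simp only [Subgroup.mem_iInf, MonoidHom.mem_ker]
      constructor
      · intro H
        by_contra hne
        exact h1 (s a) (H a (by simpa using hne))
      · intro ha b hb
        apply hvan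
        rintro rfl
        rw [ha] at hb
        cases hb
    funext a
    have h4 := key ε a
    have h5 := key δ a
    simp only at hεδ
    rw [hεδ, h5] at h4
    cases hεa : ε a <;> cases hδa : δ a <;> simp_all
  · intro ε
    refine ⟨?_, ?_⟩
    · apply Subgroup.normal_iInf_normal
      intro a
      apply Subgroup.normal_iInf_normal
      intro _
      infer_instance
    · intro f hf
      simp only [Subgroup.mem_iInf, MonoidHom.mem_ker]
      intro a _
      exact hf _

end CaseOne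

end Pool.Agent.Helper32.SmallVar
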