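import Pool.Agent.Helper32.SmallVar.Case1

/-!
# The central case: power series in `φ` give continuum many normal subgroups
-/

namespace Pool.Agent.Helper32.SmallVar

open Function

section Series

variable {G : Type*} [Group G] (φ : G →* G)

/-- Truncations of the product `∏ φ^i(n)^{ε i}`. -/
def trunc (ε : ℕ → Bool) (n : G) : ℕ → G
  | 0 => 1
  | M + 1 => trunc ε n M * (if ε M then φ^[M] n else 1)

variable {φ}

theorem trunc_zero (ε : ℕ → Bool) (n : G) : trunc φ ε n 0 = 1 := rfl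

theorem trunc_succ (ε : ℕ → Bool) (n : G) (M : ℕ) :
    trunc φ ε n (M + 1) = trunc φ ε n M * (if ε M then φ^[M] n else 1) := rfl

theorem trunc_stable {ε : ℕ → Bool} {n : G} {M : ℕ} (h : φ^[M] n = 1) (k : ℕ) :
    trunc φ ε n (M + k) = trunc φ ε n M := by
  induction k with
  | zero => rfl
  | succ k ih =>
    rw [← Nat.add_assoc, trunc_succ, ih, iter_one_of_le φ (Nat.le_add_right M k) h]
    simp

variable {N : Subgroup G} (hmap : ∀ n ∈ N, φ n ∈ N)

include hmap

theorem iter_mem {n : G} (hn : n ∈ N) (i : ℕ) : φ^[i] n ∈ N := by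
  induction i with
  | zero => exact hn
  | succ i ih => rw [iterate_succ_apply']; exact hmap _ ih

theorem trunc_mem {ε : ℕ → Bool} {n : G} (hn : n ∈ N) (M : ℕ) : trunc φ ε n M ∈ N := by
  induction M with
  | zero => exact N.one_mem
  | succ M ih =>
    rw [trunc_succ]
    refine N.mul_mem ih ?_
    split
    · exact iter_mem hmap hn M
    · exact N.one_mem

theorem trunc_mul (hcom : ∀ a ∈ N, ∀ b ∈ N, Commute a b) {ε : ℕ → Bool} {a b : G} (ha : a ∈ N)
    (hb : b ∈ N) (M : ℕ) : trunc φ ε (a * b) M = trunc φ ε a M * trunc φ ε b M := by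
  induction M with
  | zero => simp [trunc_zero]
  | succ M ih =>
    rw [trunc_succ, trunc_succ, trunc_succ, ih]
    split
    · rw [iterate_map_mul]
      have h1 : Commute (trunc φ ε b M) (φ^[M] a) :=
        hcom _ (trunc_mem hmap hb M) _ (iter_mem hmap ha M)
      calc trunc φ ε a M * trunc φ ε b M * (φ^[M] a * φ^[M] b)
          = trunc φ ε a M * (trunc φ ε b M * φ^[M] a) * φ^[M] b := by group
        _ = trunc φ ε a M * (φ^[M] a * trunc φ ε b M) * φ^[M] b := by rw [h1.eq]
        _ = _ := by group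
    · simp

theorem trunc_inv (hcom : ∀ a ∈ N, ∀ b ∈ N, Commute a b) {ε : ℕ → Bool} {a : G} (ha : a ∈ N)
    (M : ℕ) : trunc φ ε a⁻¹ M = (trunc φ ε a M)⁻¹ := by
  induction M with
  | zero => simp [trunc_zero]
  | succ M ih =>
    rw [trunc_succ, trunc_succ, ih]
    split
    · rw [iterate_map_inv, mul_inv_rev]
      have h1 : Commute (trunc φ ε a M) (φ^[M] a) :=
        hcom _ (trunc_mem hmap ha M) _ (iter_mem hmap ha M)
      exact h1.inv_inv.eq
    · simp

end Series

section Central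

variable {G : Type*} [Group G] {ι : Type*} {x : ι → G} {φ : G →* G}

/-- If `φ` is a surjective endomorphism of `G` and `N` is a nontrivial normal subgroup on which `φ`
is surjective and locally nilpotent, centralised by all elements `g⁻¹ φ(g)`, then the fibre product
`⟨(x, x), (x, φ(x))⟩` has continuum many normal subgroups. -/
theorem central (hx : Subgroup.closure (Set.range x) = ⊤) (N : Subgroup G)
    (hN : N.Normal) (hnil : ∀ n ∈ N, ∃ i, φ^[i] n = 1) (hsurj : ∀ n ∈ N, ∃ n' ∈ N, φ n' = n)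
    (hmap : ∀ n ∈ N, φ n ∈ N) (hne : ∃ n ∈ N, n ≠ 1)
    (hcomm : ∀ n ∈ N, ∀ g, Commute n (g⁻¹ * φ g)) :
    ∃ R : (ℕ → Bool) → Subgroup (FreeGroup (ι ⊕ ι)), Injective R ∧
      ∀ ε, (R ε).Normal ∧ ∀ f, psi x φ 0 f = 1 → psi x φ 1 f = 1 → f ∈ R ε := by
  -- the centraliser of `N`
  set C : Subgroup G := Subgroup.centralizer (N : Set G) with hC
  have hCn : C.Normal := inferInstance
  have memC : ∀ {c : G}, c ∈ C ↔ ∀ n ∈ N, n * c = c * n := by
    intro c
    rw [hC, Subgroup.mem_centralizer_iff]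
    rfl
  have hdC : ∀ g, g⁻¹ * φ g ∈ C := fun g => memC.mpr fun n hn => (hcomm n hn g).eq
  have hdCi : ∀ i g, g⁻¹ * φ^[i] g ∈ C := by
    intro i
    induction i with
    | zero => intro g; simp [C.one_mem]
    | succ i ih =>
      intro g
      have : g⁻¹ * φ^[i + 1] g = (g⁻¹ * φ^[i] g) * ((φ^[i] g)⁻¹ * φ (φ^[i] g)) := by
        rw [iterate_succ_apply']; group
      rw [this]
      exact C.mul_mem (ih g) (hdC _)
  have hNC : ∀ n ∈ N, n ∈ C := by
    intro n hn
    obtain ⟨i, hi⟩ := hnil n hn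
    have := hdCi i n
    rw [hi, mul_one] at this
    exact C.inv_mem_iff.mp this
  have hcom : ∀ a ∈ N, ∀ b ∈ N, Commute a b := fun a ha b hb => memC.mp (hNC b hb) a ha
  -- the two homomorphisms
  set α := psi x φ 0 with hα
  set β := psi x φ 1 with hβ
  have hαβ : ∀ f, (α f)⁻¹ * β f ∈ C := by
    intro f
    have : (QuotientGroup.mk' C).comp α = (QuotientGroup.mk' C).comp β := by
      ext k
      rcases k with k | k
      · simp [hα, hβ, psi]
      · simp only [hα, hβ, psi, MonoidHom.comp_apply, FreeGroup.lift_apply_of, Sum.elim_inr,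
          iterate_zero, id_eq, iterate_one, QuotientGroup.mk'_apply]
        rw [QuotientGroup.eq]
        exact hdC _
    have h2 := DFunLike.congr_fun this f
    simp only [MonoidHom.comp_apply, QuotientGroup.mk'_apply] at h2
    rwa [QuotientGroup.eq] at h2
  -- the range contains `(n, m)` for `n, m ∈ N`
  have hrange1 : ∀ g, ∃ f, α f = g ∧ β f = g := by
    intro g
    obtain ⟨w, hw⟩ := exists_word hx g
    exact ⟨inlW w, by rw [hα, psi_inl, hw], by rw [hβ, psi_inl, hw]⟩
  have hrange2 : ∀ g, ∃ f, α f = g ∧ β f = φ g := by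
    intro g
    obtain ⟨w, hw⟩ := exists_word hx g
    exact ⟨inrW w, by rw [hα, psi_inr, hw]; rfl, by rw [hβ, psi_inr, hw]; rfl⟩
  have hrange3 : ∀ i g, ∃ f, α f = 1 ∧ β f = g⁻¹ * φ^[i] g := by
    intro i
    induction i with
    | zero => intro g; exact ⟨1, by simp, by simp⟩
    | succ i ih =>
      intro g
      obtain ⟨f, hf1, hf2⟩ := ih g
      obtain ⟨f1, h11, h12⟩ := hrange1 (φ^[i] g)
      obtain ⟨f2, h21, h22⟩ := hrange2 (φ^[i] g)
      refine ⟨f * (f1⁻¹ * f2), ?_, ?_⟩
      · rw [map_mul, map_mul, map_inv, hf1, h11, h21]; simp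
      · rw [map_mul, map_mul, map_inv, hf2, h12, h22, iterate_succ_apply']; group
  have hrange4 : ∀ n ∈ N, ∃ f, α f = 1 ∧ β f = n := by
    intro n hn
    obtain ⟨i, hi⟩ := hnil n hn
    obtain ⟨f, hf1, hf2⟩ := hrange3 i n
    rw [hi, mul_one] at hf2
    exact ⟨f⁻¹, by rw [map_inv, hf1, inv_one], by rw [map_inv, hf2, inv_inv]⟩
  have hrange : ∀ n ∈ N, ∀ m ∈ N, ∃ f, α f = n ∧ β f = m := by
    intro n hn m hm
    obtain ⟨f1, h11, h12⟩ := hrange1 n
    obtain ⟨f2, h21, h22⟩ := hrange4 (n⁻¹ * m) (N.mul_mem (N.inv_mem hn) hm)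
    exact ⟨f1 * f2, by rw [map_mul, h11, h21, mul_one],
      by rw [map_mul, h12, h22]; group⟩
  -- conjugation
  have hconj : ∀ f, ∀ n ∈ N, β f * n * (β f)⁻¹ = α f * n * (α f)⁻¹ := by
    intro f n hn
    obtain ⟨c, hc, hcb⟩ : ∃ c ∈ C, β f = α f * c := ⟨(α f)⁻¹ * β f, hαβ f, by group⟩
    have h3 := memC.mp hc n hn
    rw [hcb]
    calc α f * c * n * (α f * c)⁻¹ = α f * (c * n) * c⁻¹ * (α f)⁻¹ := by group
      _ = α f * (n * c) * c⁻¹ * (α f)⁻¹ := by rw [h3]
      _ = _ := by group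
  have hphiconj : ∀ (g : G), ∀ n ∈ N, ∀ i, φ^[i] (g * n * g⁻¹) = g * φ^[i] n * g⁻¹ := by
    intro g n hn i
    obtain ⟨c, hc, hcb⟩ : ∃ c ∈ C, φ^[i] g = g * c := ⟨g⁻¹ * φ^[i] g, hdCi i g, by group⟩
    have h3 := memC.mp hc _ (iter_mem hmap hn i)
    rw [iterate_map_mul, iterate_map_mul, iterate_map_inv, hcb]
    calc g * c * φ^[i] n * (g * c)⁻¹ = g * (c * φ^[i] n) * c⁻¹ * g⁻¹ := by group
      _ = g * (φ^[i] n * c) * c⁻¹ * g⁻¹ := by rw [h3]
      _ = _ := by group
  have htrconj : ∀ (ε : ℕ → Bool) (g : G), ∀ n ∈ N, ∀ M,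
      trunc φ ε (g * n * g⁻¹) M = g * trunc φ ε n M * g⁻¹ := by
    intro ε g n hn M
    induction M with
    | zero => simp [trunc_zero]
    | succ M ih =>
      rw [trunc_succ, trunc_succ, ih, hphiconj g n hn M]
      split
      · group
      · simp
  -- the normal subgroups
  let R : (ℕ → Bool) → Subgroup (FreeGroup (ι ⊕ ι)) := fun ε =>
    { carrier := {f | α f ∈ N ∧ ∃ M₀, ∀ M ≥ M₀, β f = trunc φ ε (α f) M}
      one_mem' := by
        refine ⟨by rw [map_one]; exact N.one_mem, 0, fun M _ => ?_⟩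
        rw [map_one, map_one]
        have := trunc_inv hmap hcom (ε := ε) N.one_mem M
        induction M with
        | zero => rfl
        | succ M ih =>
          rw [trunc_succ, ← ih (Nat.zero_le _) (trunc_inv hmap hcom (ε := ε) N.one_mem M)]
          simp
      mul_mem' := by
        rintro a b ⟨ha, Ma, hMa⟩ ⟨hb, Mb, hMb⟩
        refine ⟨by rw [map_mul]; exact N.mul_mem ha hb, max Ma Mb, fun M hM => ?_⟩
        rw [map_mul, map_mul, trunc_mul hmap hcom ha hb, hMa M (le_trans (le_max_left _ _) hM),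
          hMb M (le_trans (le_max_right _ _) hM)]
      inv_mem' := by
        rintro a ⟨ha, Ma, hMa⟩
        refine ⟨by rw [map_inv]; exact N.inv_mem ha, Ma, fun M hM => ?_⟩
        rw [map_inv, map_inv, trunc_inv hmap hcom ha, hMa M hM] }
  have memR : ∀ {ε f}, f ∈ R ε ↔ α f ∈ N ∧ ∃ M₀, ∀ M ≥ M₀, β f = trunc φ ε (α f) M :=
    Iff.rfl
  have htr1 : ∀ (ε : ℕ → Bool) M, trunc φ ε (1 : G) M = 1 := by
    intro ε M
    induction M with
    | zero => rfl
    | succ M ih => rw [trunc_succ, ih]; simp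
  refine ⟨R, ?_, ?_⟩
  · intro ε δ hεδ
    by_contra hne'
    obtain ⟨j, hj, hjmin⟩ : ∃ j, ε j ≠ δ j ∧ ∀ i < j, ε i = δ i := by
      have hex : ∃ j, ε j ≠ δ j := by
        by_contra hall
        push Not at hall
        exact hne' (funext hall)
      classical
      exact ⟨Nat.find hex, Nat.find_spec hex, fun i hi => by
        have := Nat.find_min hex hi
        simpa using this⟩
    -- a nontrivial element killed by `φ`
    obtain ⟨n₀, hn₀, hn₀1, hφn₀⟩ : ∃ n ∈ N, n ≠ 1 ∧ φ n = 1 := by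
      obtain ⟨n, hn, hn1⟩ := hne
      classical
      have hex := hnil n hn
      have hspec := Nat.find_spec hex
      have hpos : Nat.find hex ≠ 0 := by
        intro h0
        rw [h0] at hspec
        exact hn1 hspec
      obtain ⟨k, hk⟩ := Nat.exists_eq_succ_of_ne_zero hpos
      refine ⟨φ^[k] n, iter_mem hmap hn k, ?_, ?_⟩
      · exact Nat.find_min hex (by omega)
      · have h8 : φ (φ^[k] n) = φ^[k + 1] n := (iterate_succ_apply' φ k n).symm
        rw [h8]
        rw [hk] at hspec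
        exact hspec
    obtain ⟨n, hn, hnj⟩ : ∃ n ∈ N, φ^[j] n = n₀ := by
      clear hj hjmin
      induction j with
      | zero => exact ⟨n₀, hn₀, rfl⟩
      | succ j ih =>
        obtain ⟨n, hn, hnj⟩ := ih
        obtain ⟨n', hn', hn'n⟩ := hsurj n hn
        exact ⟨n', hn', by rw [iterate_succ_apply, hn'n, hnj]⟩
    have hnj1 : φ^[j + 1] n = 1 := by rw [iterate_succ_apply', hnj, hφn₀]
    obtain ⟨f, hf1, hf2⟩ := hrange n hn (trunc φ ε n (j + 1)) (trunc_mem hmap hn _)
    have hfε : f ∈ R ε := by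
      rw [memR, hf1, hf2]
      refine ⟨hn, j + 1, fun M hM => ?_⟩
      obtain ⟨k, rfl⟩ := Nat.exists_eq_add_of_le hM
      rw [trunc_stable hnj1]
    rw [hεδ, memR, hf1, hf2] at hfε
    obtain ⟨_, M₀, hM₀⟩ := hfε
    have h5 := hM₀ (j + 1 + M₀) (Nat.le_add_left _ _)
    rw [trunc_stable hnj1, trunc_succ, trunc_succ, hnj] at h5
    have h6 : trunc φ ε n j = trunc φ δ n j := by
      have : ∀ i ≤ j, trunc φ ε n i = trunc φ δ n i := by
        intro i
        induction i with
        | zero => intro _; rfl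
        | succ i ih =>
          intro hi
          rw [trunc_succ, trunc_succ, ih (by omega), hjmin i (by omega)]
      exact this j le_rfl
    rw [h6] at h5
    have h7 := mul_left_cancel h5
    cases hε : ε j <;> cases hδ : δ j <;> simp_all
  · intro ε
    refine ⟨⟨?_⟩, ?_⟩
    · rintro f ⟨hf, M₀, hM₀⟩ g
      refine ⟨?_, M₀, fun M hM => ?_⟩
      · rw [map_mul, map_mul, map_inv]
        exact hN.conj_mem _ hf _
      · rw [map_mul, map_mul, map_inv, map_mul, map_mul, map_inv, htrconj ε (α g) (α f) hf M,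
          hM₀ M hM, hconj g _ (trunc_mem hmap hf M)]
    · intro f h0 h1
      rw [memR, h0, h1]
      exact ⟨N.one_mem, 0, fun M _ => (htr1 ε M).symm⟩

end Central

end Pool.Agent.Helper32.SmallVar
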