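import Pool.Agent.Helper32.SmallVar.Main

/-!
# Small varieties consist of Hopfian groups: definitions and final form
-/

namespace Pool.Agent.Helper32.SmallVar

open Function

universe u

/-- `G` satisfies every law `w = 1`, `w ∈ L`; the words are in countably many variables. -/
def SatisfiesLaws (L : Set (FreeGroup ℕ)) (G : Type u) [Group G] : Prop :=
  ∀ w ∈ L, ∀ a : ℕ → G, FreeGroup.lift a w = 1

/-- The variety defined by the laws `L` is small: up to isomorphism it contains only countably many
finitely generated groups. -/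
def IsSmallVariety (L : Set (FreeGroup ℕ)) : Prop :=
  ∃ H : ℕ → GrpCat.{0}, ∀ (G : Type) [Group G], Group.FG G → SatisfiesLaws L G →
    ∃ i, Nonempty (G ≃* H i)

/-- Every surjective endomorphism is injective. -/
def IsHopfian (G : Type u) [Group G] : Prop :=
  ∀ φ : G →* G, Surjective φ → Injective φ

theorem laws_quotient {L : Set (FreeGroup ℕ)} {G : Type u} [Group G] (hG : SatisfiesLaws L G)
    {F : Type*} [Group F] {I : Type*} (p : I → F →* G) (R : Subgroup F) [R.Normal]
    (hR : ∀ f, (∀ i, p i f = 1) → f ∈ R) : SatisfiesLaws L (F ⧸ R) := by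
  intro w hw a
  choose b hb using fun n => QuotientGroup.mk'_surjective R (a n)
  have h1 : FreeGroup.lift a w = QuotientGroup.mk' R (FreeGroup.lift b w) := by
    have : FreeGroup.lift a = (QuotientGroup.mk' R).comp (FreeGroup.lift b) := by
      ext n
      simpa using (hb n).symm
    rw [this]; rfl
  rw [h1, QuotientGroup.mk'_apply, QuotientGroup.eq_one_iff]
  apply hR
  intro i
  have h2 : p i (FreeGroup.lift b w) = FreeGroup.lift (fun n => p i (b n)) w := by
    have : (p i).comp (FreeGroup.lift b) = FreeGroup.lift (fun n => p i (b n)) := by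
      ext n
      simp
    rw [← this]; rfl
  rw [h2]
  exact hG w hw _

instance freeGroup_countable {α : Type*} [Countable α] : Countable (FreeGroup α) := by
  unfold FreeGroup
  infer_instance

/-- Only countably many normal subgroups of a countable finitely generated free group have a
quotient isomorphic to a given group. -/
theorem countable_iso {κ : Type} [Finite κ] {X : Type} (R : X → Subgroup (FreeGroup κ))
    (hR : Injective R) [hn : ∀ ε, (R ε).Normal] (δ : X) :
    Countable {ε : X // Nonempty (FreeGroup κ ⧸ R ε ≃* FreeGroup κ ⧸ R δ)} := by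
  have hc : Countable (FreeGroup κ ⧸ R δ) :=
    (QuotientGroup.mk'_surjective (R δ)).countable
  have hc2 : Countable (FreeGroup κ →* FreeGroup κ ⧸ R δ) :=
    (FreeGroup.lift (α := κ) (β := FreeGroup κ ⧸ R δ)).symm.injective.countable
  let F : {ε : X // Nonempty (FreeGroup κ ⧸ R ε ≃* FreeGroup κ ⧸ R δ)} →
      (FreeGroup κ →* FreeGroup κ ⧸ R δ) := fun ε =>
    (Classical.choice ε.2).toMonoidHom.comp (QuotientGroup.mk' (R ε.1))
  have hF : ∀ ε, (F ε).ker = R ε.1 := by
    intro ε
    ext f
    simp only [F, MonoidHom.mem_ker, MonoidHom.comp_apply, MulEquiv.coe_toMonoidHom]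
    rw [map_eq_one_iff _ (MulEquiv.injective _), QuotientGroup.mk'_apply,
      QuotientGroup.eq_one_iff]
  have hinj : Injective F := by
    intro ε ε' h
    apply Subtype.ext
    apply hR
    rw [← hF ε, ← hF ε', h]
  exact hinj.countable

/-- Continuum many normal subgroups give continuum many pairwise non-isomorphic quotients. -/
theorem exists_noniso {κ : Type} [Finite κ] (R : (ℕ → Bool) → Subgroup (FreeGroup κ))
    (hR : Injective R) [hn : ∀ ε, (R ε).Normal] :
    ∃ c : (ℕ → Bool) → (ℕ → Bool), ∀ ε δ,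
      Nonempty (FreeGroup κ ⧸ R (c ε) ≃* FreeGroup κ ⧸ R (c δ)) → ε = δ := by
  let s : Setoid (ℕ → Bool) :=
    { r := fun ε δ => Nonempty (FreeGroup κ ⧸ R ε ≃* FreeGroup κ ⧸ R δ)
      iseqv := ⟨fun _ => ⟨MulEquiv.refl _⟩, fun ⟨e⟩ => ⟨e.symm⟩, fun ⟨e⟩ ⟨f⟩ => ⟨e.trans f⟩⟩ }
  have hcard : Cardinal.mk (ℕ → Bool) ≤ Cardinal.mk (Quotient s) * Cardinal.aleph0 := by
    apply Cardinal.mk_le_mk_mul_of_mk_preimage_le (Quotient.mk s)
    intro b
    obtain ⟨δ, rfl⟩ := Quotient.exists_rep b
    rw [Cardinal.mk_le_aleph0_iff]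
    have h1 := countable_iso R hR δ
    have h2 : Set.Countable {ε | Nonempty (FreeGroup κ ⧸ R ε ≃* FreeGroup κ ⧸ R δ)} := h1
    refine Set.Countable.mono ?_ h2
    intro ε hε
    exact Quotient.exact hε
  have hle : Cardinal.mk (ℕ → Bool) ≤ Cardinal.mk (Quotient s) := by
    have hcont : Cardinal.aleph0 < Cardinal.mk (ℕ → Bool) := by
      simpa using Cardinal.aleph0_lt_continuum
    by_contra hlt
    push Not at hlt
    rcases le_or_gt Cardinal.aleph0 (Cardinal.mk (Quotient s)) with h | h
    · rw [Cardinal.mul_aleph0_eq h] at hcard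
      exact absurd hcard (not_le.mpr hlt)
    · have : Cardinal.mk (Quotient s) * Cardinal.aleph0 ≤ Cardinal.aleph0 :=
        (mul_le_mul_left h.le _).trans (by rw [Cardinal.aleph0_mul_aleph0])
      exact absurd (hcard.trans this) (not_le.mpr hcont)
  obtain ⟨e⟩ := Cardinal.le_def _ _ |>.mp hle
  refine ⟨fun ε => (e ε).out, fun ε δ h => ?_⟩
  apply e.injective
  have : (Quotient.mk s (e ε).out) = Quotient.mk s (e δ).out := Quotient.sound h
  rwa [Quotient.out_eq, Quotient.out_eq] at this

end Pool.Agent.Helper32.SmallVar
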