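import Pool.Agent.Helper32.SmallVar.Final

/-!
# Every finitely generated group in a small variety is Hopfian

One implication of the question: if a variety of groups contains only countably many finitely
generated groups up to isomorphism, then all its finitely generated groups are Hopfian. In fact the
variety generated by an `n`-generator non-Hopfian group contains continuum many pairwise
non-isomorphic `2n`-generator groups.
-/

open Pool.Agent.Helper32.SmallVar

universe u

theorem Pool.Agent.Helper32.SmallVar.fullMain :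
    (∀ L : Set (FreeGroup ℕ), IsSmallVariety L →
      ∀ (G : Type u) [Group G], Group.FG G → SatisfiesLaws L G → IsHopfian G) ∧
    (∀ (n : ℕ) (G : Type u) [Group G] (x : Fin n → G),
      Subgroup.closure (Set.range x) = ⊤ → ¬ IsHopfian G →
      ∃ H : (ℕ → Bool) → GrpCat.{0},
        (∀ ε, ∃ y : Fin (2 * n) → H ε, Subgroup.closure (Set.range y) = ⊤) ∧
        (∀ ε, ∀ L : Set (FreeGroup ℕ), SatisfiesLaws L G → SatisfiesLaws L (H ε)) ∧
        (∀ ε δ, Nonempty (H ε ≃* H δ) → ε = δ)) := by
  have key : ∀ (n : ℕ) (G : Type u) [Group G] (x : Fin n → G),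
      Subgroup.closure (Set.range x) = ⊤ → ¬ IsHopfian G →
      ∃ H : (ℕ → Bool) → GrpCat.{0},
        (∀ ε, ∃ y : Fin (2 * n) → H ε, Subgroup.closure (Set.range y) = ⊤) ∧
        (∀ ε, ∀ L : Set (FreeGroup ℕ), SatisfiesLaws L G → SatisfiesLaws L (H ε)) ∧
        (∀ ε δ, Nonempty (H ε ≃* H δ) → ε = δ) := by
    intro n G _ x hx hG
    unfold IsHopfian at hG
    push Not at hG
    obtain ⟨φ, hs, hi⟩ := hG
    obtain ⟨R, hR, hR2⟩ := main hx hs hi
    have : ∀ ε, (R ε).Normal := fun ε => (hR2 ε).1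
    obtain ⟨c, hc⟩ := exists_noniso R hR
    refine ⟨fun ε => GrpCat.of (FreeGroup (Fin n ⊕ Fin n) ⧸ R (c ε)), ?_, ?_, ?_⟩
    · intro ε
      let e : Fin (2 * n) ≃ Fin n ⊕ Fin n :=
        (finCongr (two_mul n)).trans finSumFinEquiv.symm
      let q := QuotientGroup.mk' (R (c ε))
      refine ⟨fun i => q (FreeGroup.of (e i)), ?_⟩
      have h1 : (Set.range fun i => q (FreeGroup.of (e i))) =
          q '' (Set.range (FreeGroup.of : Fin n ⊕ Fin n → _)) := by
        rw [← Set.range_comp]
        exact (e.surjective.range_comp (q ∘ FreeGroup.of))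
      rw [h1, ← MonoidHom.map_closure, FreeGroup.closure_range_of, ← MonoidHom.range_eq_map,
        MonoidHom.range_eq_top]
      exact QuotientGroup.mk'_surjective _
    · intro ε L hL
      exact laws_quotient hL (psi x φ) (R (c ε)) (hR2 _).2
    · intro ε δ h
      exact hc ε δ h
  refine ⟨?_, key⟩
  intro L hL G _ hfg hG
  by_contra hH
  obtain ⟨n, x, hx⟩ : ∃ (n : ℕ) (x : Fin n → G), Subgroup.closure (Set.range x) = ⊤ := by
    obtain ⟨S, hS⟩ := hfg.out
    refine ⟨S.card, fun i => (S.equivFin.symm i : G), ?_⟩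
    rw [← hS]
    congr 1
    ext g
    constructor
    · rintro ⟨i, rfl⟩
      exact (S.equivFin.symm i).2
    · intro hg
      exact ⟨S.equivFin ⟨g, hg⟩, by simp⟩
  obtain ⟨H, h1, h2, h3⟩ := key n G x hx hH
  obtain ⟨H', hH'⟩ := hL
  have h4 : ∀ ε, ∃ i, Nonempty (H ε ≃* H' i) := by
    classical
    intro ε
    obtain ⟨y, hy⟩ := h1 ε
    apply hH' (H ε) _ (h2 ε L hG)
    refine ⟨⟨Finset.univ.image y, ?_⟩⟩
    simpa using hy
  choose i hi using h4
  have hinj : Function.Injective i := by
    intro ε δ h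
    apply h3
    obtain ⟨e⟩ := hi ε
    obtain ⟨f⟩ := hi δ
    rw [← h] at f
    exact ⟨e.trans f.symm⟩
  have h7 : Cardinal.aleph0 < Cardinal.mk (ℕ → Bool) := by
    simpa using Cardinal.aleph0_lt_continuum
  have h5 : Countable (ℕ → Bool) := hinj.countable
  have h6 : Cardinal.mk (ℕ → Bool) ≤ Cardinal.aleph0 := Cardinal.mk_le_aleph0_iff.mpr h5
  exact absurd h6 (not_le.mpr h7)
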