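import Pool.Agent.Helper32.SmallVar.Central

/-!
# A non-injective surjective endomorphism gives continuum many normal subgroups
-/

namespace Pool.Agent.Helper32.SmallVar

open Function
open scoped commutatorElement

section It

variable {G : Type*} [Group G] (φ : G →* G)

/-- The iterate as a homomorphism. -/
def it (d : ℕ) : G →* G where
  toFun := φ^[d]
  map_one' := iterate_map_one φ d
  map_mul' := iterate_map_mul φ d

theorem it_apply (d : ℕ) (g : G) : it φ d g = φ^[d] g := rfl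

theorem it_iter (d i : ℕ) (g : G) : (it φ d)^[i] g = φ^[d * i] g := by
  rw [iterate_mul]; rfl

theorem mem_nilp_it {d : ℕ} (hd : d ≠ 0) {g : G} : g ∈ nilp (it φ d) ↔ g ∈ nilp φ := by
  constructor
  · rintro ⟨i, hi⟩
    exact ⟨d * i, by rw [← it_iter, hi]⟩
  · rintro ⟨i, hi⟩
    refine ⟨i, ?_⟩
    rw [it_iter]
    exact iter_one_of_le φ (Nat.le_mul_of_pos_left i (Nat.pos_of_ne_zero hd)) hi

theorem dif_le {i d : ℕ} (h : i ∣ d) : dif φ d ≤ dif φ i := by
  obtain ⟨q, rfl⟩ := h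
  apply Subgroup.normalClosure_le_normal
  rintro y ⟨g, rfl⟩
  show g⁻¹ * φ^[i * q] g ∈ dif φ i
  induction q with
  | zero => simp [(dif φ i).one_mem]
  | succ q ih =>
    have : g⁻¹ * φ^[i * (q + 1)] g = (g⁻¹ * φ^[i * q] g) *
        ((φ^[i * q] g)⁻¹ * φ^[i] (φ^[i * q] g)) := by
      rw [← iterate_add_apply, Nat.mul_succ, Nat.add_comm i]; group
    rw [this]
    exact (dif φ i).mul_mem ih (mem_dif φ i _)

variable {φ}

theorem dif_surj (hs : Surjective φ) (d : ℕ) {e : G} (he : e ∈ dif φ d) :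
    ∃ e' ∈ dif φ d, it φ d e' = e := by
  have hsd : Surjective (it φ d) := hs.iterate d
  have hn : ((dif φ d).map (it φ d)).Normal := Subgroup.Normal.map inferInstance _ hsd
  have hle : dif φ d ≤ (dif φ d).map (it φ d) := by
    apply Subgroup.normalClosure_le_normal
    rintro y ⟨g, rfl⟩
    obtain ⟨g', rfl⟩ := hsd g
    refine ⟨g'⁻¹ * φ^[d] g', mem_dif φ d g', ?_⟩
    rw [map_mul, map_inv]; rfl
  exact hle he

theorem ser_mono {B B' : ℕ → Subgroup G} (j : ℕ) (h : ∀ i, 1 ≤ i → i ≤ j → B' i ≤ B i) :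
    ser B j ⊆ ser B' j := by
  induction j with
  | zero => exact subset_rfl
  | succ j ih =>
    intro g hg e he
    exact ih (fun i h1 h2 => h i h1 (by omega)) (hg e (h (j + 1) (by omega) le_rfl he))

end It

section Main

variable {G : Type*} [Group G] {ι : Type*} {x : ι → G} {φ : G →* G}

theorem case2 (hx : Subgroup.closure (Set.range x) = ⊤) (hs : Surjective φ)
    (hi : ¬ Injective φ) (j : ℕ) (h : ∀ n ∈ nilp φ, n ∈ ser (dif φ) j) :
    ∃ R : (ℕ → Bool) → Subgroup (FreeGroup (ι ⊕ ι)), Injective R ∧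
      ∀ ε, (R ε).Normal ∧ ∀ f, (∀ i, psi x φ i f = 1) → f ∈ R ε := by
  classical
  set d := Nat.factorial j with hd
  have hd0 : d ≠ 0 := Nat.factorial_ne_zero j
  set B : ℕ → Subgroup G := fun _ => dif φ d with hBdef
  have hB : ∀ i, (B i).Normal := fun _ => dif_normal φ d
  have hj : ∀ n ∈ nilp φ, n ∈ ser B j := fun n hn =>
    ser_mono j (fun i h1 h2 => dif_le φ (Nat.dvd_factorial h1 h2)) (h n hn)
  have hex : ∃ k, ∀ n ∈ nilp φ, n ∈ ser B k := ⟨j, hj⟩
  -- a nontrivial element of the kernel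
  obtain ⟨n₁, hn₁, hn₁1⟩ : ∃ n, φ n = 1 ∧ n ≠ 1 := by
    rw [injective_iff_map_eq_one] at hi
    push Not at hi
    exact hi
  have hn₁N : n₁ ∈ nilp φ := ⟨1, hn₁⟩
  have hk0 : Nat.find hex ≠ 0 := by
    intro h0
    have := Nat.find_spec hex n₁ hn₁N
    rw [h0] at this
    exact hn₁1 this
  obtain ⟨k, hk⟩ := Nat.exists_eq_succ_of_ne_zero hk0
  have hkN : ∀ n ∈ nilp φ, n ∈ ser B (k + 1) := by
    have := Nat.find_spec hex
    rwa [hk] at this
  have hkN' : ∃ n ∈ nilp φ, n ∉ ser B k := by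
    have := Nat.find_min hex (m := k) (by omega)
    push Not at this
    exact this
  -- the endomorphism `φ^d`
  set θ := it φ d with hθ
  have hθs : Surjective θ := hs.iterate d
  have hθser : ∀ i, ∀ g ∈ ser B i, θ g ∈ ser B i := by
    intro i
    induction i with
    | zero =>
      intro g hg
      rw [mem_ser_zero] at *
      rw [hg, map_one]
    | succ i ih =>
      intro g hg e he
      obtain ⟨e', he', hee⟩ := dif_surj hs d he
      rw [← hee, ← map_commutatorElement]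
      exact ih _ (hg e' he')
  -- the normal subgroup to be factored out
  set Z : Subgroup G := nilp φ ⊓ serSub hB k with hZ
  have hZn : Z.Normal := by
    refine ⟨fun n hn g => ?_⟩
    exact ⟨nilp_conj φ hn.1 g, serSub_conj hB hn.2 g⟩
  have hθN : ∀ n ∈ nilp φ, θ n ∈ nilp φ := by
    intro n hn
    exact iter_mem (fun n hn => nilp_map φ hn) hn d
  have hθZ : Z ≤ Z.comap θ := fun n hn => ⟨hθN n hn.1, hθser k n hn.2⟩
  set q := QuotientGroup.mk' Z with hq
  have hqs : Surjective q := QuotientGroup.mk'_surjective Z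
  set θ' : G ⧸ Z →* G ⧸ Z := QuotientGroup.map Z Z θ hθZ with hθ'
  have hθ'q : ∀ g, θ' (q g) = q (θ g) := fun g => rfl
  have hθ'qi : ∀ i g, θ'^[i] (q g) = q (θ^[i] g) := by
    intro i
    induction i with
    | zero => intro g; rfl
    | succ i ih => intro g; rw [iterate_succ_apply, iterate_succ_apply, hθ'q, ih]
  have hx' : Subgroup.closure (Set.range (q ∘ x)) = ⊤ := by
    rw [Set.range_comp, ← MonoidHom.map_closure, hx, ← MonoidHom.range_eq_map,
      MonoidHom.range_eq_top]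
    exact hqs
  have hq1 : ∀ g, q g = 1 ↔ g ∈ Z := fun g => QuotientGroup.eq_one_iff g
  obtain ⟨R, hR, hR2⟩ := central (x := q ∘ x) (φ := θ') hx' ((nilp φ).map q)
    (Subgroup.Normal.map ⟨fun n hn g => nilp_conj φ hn g⟩ _ hqs)
    (by
      rintro _ ⟨n, hn, rfl⟩
      obtain ⟨i, hi⟩ := (mem_nilp_it φ hd0).mpr hn
      exact ⟨i, by rw [hθ'qi, hθ, hi, map_one]⟩)
    (by
      rintro _ ⟨n, hn, rfl⟩
      obtain ⟨n', rfl⟩ := hθs n
      exact ⟨q n', ⟨n', nilp_of_iter φ hn, rfl⟩, rfl⟩)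
    (by
      rintro _ ⟨n, hn, rfl⟩
      exact ⟨θ n, hθN n hn, rfl⟩)
    (by
      obtain ⟨n, hn, hnk⟩ := hkN'
      refine ⟨q n, ⟨n, hn, rfl⟩, ?_⟩
      rw [ne_eq, hq1]
      exact fun hnZ => hnk hnZ.2)
    (by
      rintro _ ⟨n, hn, rfl⟩ g
      obtain ⟨g, rfl⟩ := hqs g
      rw [hθ'q, ← map_inv, ← map_mul, commute_iff_eq, ← commutatorElement_eq_one_iff_mul_comm,
        ← map_commutatorElement, hq1]
      refine ⟨?_, hkN n hn _ (mem_dif φ d g)⟩
      rw [commutatorElement_def, mul_assoc, mul_assoc]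
      refine (nilp φ).mul_mem hn ?_
      rw [← mul_assoc]
      exact nilp_conj φ ((nilp φ).inv_mem hn) _)
  have hpsi : ∀ i f, psi (q ∘ x) θ' i f = q (psi x φ (d * i) f) := by
    intro i f
    have : psi (q ∘ x) θ' i = q.comp (psi x φ (d * i)) := by
      ext k
      rcases k with k | k
      · simp [psi]
      · simp only [psi, MonoidHom.comp_apply, FreeGroup.lift_apply_of, Sum.elim_inr, comp_apply]
        rw [hθ'qi, hθ, it_iter]
    rw [this]; rfl
  refine ⟨R, hR, fun ε => ⟨(hR2 ε).1, fun f hf => (hR2 ε).2 f ?_ ?_⟩⟩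
  · rw [hpsi, hf, map_one]
  · rw [hpsi, hf, map_one]

/-- Main construction. -/
theorem main (hx : Subgroup.closure (Set.range x) = ⊤) (hs : Surjective φ)
    (hi : ¬ Injective φ) :
    ∃ R : (ℕ → Bool) → Subgroup (FreeGroup (ι ⊕ ι)), Injective R ∧
      ∀ ε, (R ε).Normal ∧ ∀ f, (∀ i, psi x φ i f = 1) → f ∈ R ε := by
  by_cases h : ∀ j, ∃ n ∈ nilp φ, n ∉ ser (dif φ) j
  · exact case1 hx hs h
  · push Not at h
    obtain ⟨j, hj⟩ := h
    exact case2 hx hs hi j hj

end Main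

end Pool.Agent.Helper32.SmallVar
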